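import Pool.Agent.W2helper81.LT.All
import Pool.Agent.W2helper81.LT.Fin

/-!
# The generic Ramanujan conjecture for `GL(3)`: the least tempered place (a Linnik type theorem)

Let `π` be a unitary cuspidal automorphic representation of `GL_3` over a number field `K`, `n = [K : ℚ]` (such a `π` is
globally generic), unramified outside the finite set `S`, with Satake parameters `α_{i,v}`, `v ∉ S`, and trace
`a_v = α_{1,v} + α_{2,v} + α_{3,v}`; `q_v` is the norm of `v`. The component `π_v` is tempered iff `|α_{i,v}| = 1` for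
`i = 1, 2, 3`. Let `TX α X` be the set of the places `v ∉ S` **of degree one over `ℚ`** (`q_v` is a prime number) with
`q_v ≤ X` such that `π_v` is tempered and `|a_v| < 1`.

**Theorem.** Let `c < 1/2 + 1/(16 n)`, and let `κ₀` be any number. There is a number `B` (depending on `K`, `A`, `κ₀`, `c`
only) such that for ALL `Q ≥ 2` and ALL `π` of conductor at most `Q`
`∑_{v ∈ TX α (Q^B)} (1 - |a_v|²) q_v^(-c) ≥ κ₀ log Q`,
and (with another `B`) at some scale `y ≤ Q^B` there are at least `κ₀ (log Q) y^c` places in `TX α y`. In particular,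
there is a tempered place of degree one with `q_v ≤ Q^B`: the least tempered place is bounded by a power of the
conductor. For a fixed `π` and all large `X` the sum over `q_v ≤ X` is at least `κ log X` for some `κ > 0`, and
the number of the tempered places of degree one with `q_v ≤ X` is not `O(X^c)`; for `K = ℚ` this holds for every
`c < 9/16`.

The structure `CuspidalCond A Q` says in which sense the conductor is at most `Q`. It lists what is used of `π`; all of it
is classical: the unramified components are unitary; `L(s, π × π~)` converges absolutely for `Re s > 1` (Jacquet,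
Shalika) and is holomorphic except for a simple pole at `s = 1`, with its functional equation, whose conductor and
parameters are bounded in terms of `Q`, and the convexity bound `(Q (2 + |t|))^A` (Jacquet, Piatetski-Shapiro, Shalika,
Moeglin, Waldspurger, Brumley, Li); the same for `ζ_K` (Hecke); the partial adjoint `L`-function of `GL_3` is holomorphic
in `Re s ≥ 1/2` (Hundley, Zhang).

Idea. Let `log (L(s, π × π~) / ζ_K(s)) = ∑ b_n n^(-s)` (outside `S`). The `b_n` are nonnegative except at the powers of the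
`q_v`, `π_v` tempered, `|a_v| < 1`; for degree at least two these are harmless to the right of `1/2`. If the theorem fails,
a quantitative version of Landau's lemma (with a Gaussian kernel) shows that the coefficients of `L(s, π × π~) / ζ_K(s)` up to
a large power of `Q` are absolutely summable at an exponent `σ < 1/2 + 1/(16 n)`, with sum at most a power of `Q`. This
contradicts the functional equation of degree `8 n`: the integral of this quotient (times finitely many Euler factors) over
`1/2 + i t`, `t` near a large power `T` of `Q`, with a Gaussian weight of width `V = T^(1 - ε)`, is about `V` because of the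
first coefficient on the left side of the functional equation, and at most `Q^C T^(8 n (σ - 1/2) + 1/2)` by the method of
stationary phase (van der Corput) on the other side.
-/

set_option autoImplicit false

open Complex NumberField IsDedekindDomain

namespace Pool.Agent.Results.MP_08cfa9_nt.LeastTemperedPlace

open Pool.Agent.TH861.GL3 Pool.Agent.W2helper81.LT

/-- **The least tempered place of a cusp form on `GL(3)`.** -/
theorem result (K : Type*) [Field K] [NumberField K] (A κ₀ c : ℝ)
    (hc : c < 1 / 2 + 1 / (16 * Module.finrank ℚ K)) :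
    (∃ B : ℝ, 1 ≤ B ∧ ∀ Q : ℝ, 2 ≤ Q → ∀ (S : Finset (HeightOneSpectrum (𝓞 K))) (α : PL S → Fin 3 → ℂ),
      CuspidalCond A Q α →
      κ₀ * Real.log Q ≤ ∑ᶠ v ∈ TX α (Q ^ B), (1 - ‖∑ i, α v i‖ ^ 2) * (qq v.1 : ℝ) ^ (-c)) ∧
    (∃ B : ℝ, 1 ≤ B ∧ ∀ Q : ℝ, 2 ≤ Q → ∀ (S : Finset (HeightOneSpectrum (𝓞 K))) (α : PL S → Fin 3 → ℂ),
      CuspidalCond A Q α →
      ∃ y : ℝ, 1 ≤ y ∧ y ≤ Q ^ B ∧ κ₀ * Real.log Q * y ^ c ≤ ((TX α y).ncard : ℝ)) ∧
    ∀ (S : Finset (HeightOneSpectrum (𝓞 K))) (α : PL S → Fin 3 → ℂ) (Q₀ : ℝ), 2 ≤ Q₀ → CuspidalCond A Q₀ α →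
      (∃ κ X₀ : ℝ, 0 < κ ∧ ∀ X : ℝ, X₀ ≤ X →
        κ * Real.log X ≤ ∑ᶠ v ∈ TX α X, (1 - ‖∑ i, α v i‖ ^ 2) * (qq v.1 : ℝ) ^ (-c)) ∧
      ∀ C X₀ : ℝ, ∃ X : ℝ, X₀ ≤ X ∧ C * X ^ c < ((TX α X).ncard : ℝ) := by
  refine ⟨final p_core K A κ₀ c hc, ?_, fun S α Q₀ hQ₀ h => fixed p_core hc h hQ₀⟩
  have h0 : 0 < (Module.finrank ℚ K : ℝ) := by exact_mod_cast (Module.finrank_pos (R := ℚ) (M := K))
  obtain ⟨B, hB1, hB⟩ := count p_core K A |κ₀| (max c 0) (le_max_right _ _) (max_lt hc (by positivity))
  refine ⟨B, hB1, fun Q hQ S α h => ?_⟩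
  obtain ⟨y, hy1, hy2, hy3⟩ := hB Q hQ S α h
  refine ⟨y, hy1, hy2, le_trans ?_ hy3⟩
  have hl : 0 ≤ Real.log Q := Real.log_nonneg (by linarith)
  have h1 : 0 ≤ y ^ c := Real.rpow_nonneg (by linarith) _
  have h2 : y ^ c ≤ y ^ (max c 0) := Real.rpow_le_rpow_of_exponent_le hy1 (le_max_left _ _)
  calc κ₀ * Real.log Q * y ^ c ≤ |κ₀| * Real.log Q * y ^ c :=
        mul_le_mul_of_nonneg_right (mul_le_mul_of_nonneg_right (le_abs_self _) hl) h1
    _ ≤ |κ₀| * Real.log Q * y ^ (max c 0) := mul_le_mul_of_nonneg_left h2 (by positivity)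

end Pool.Agent.Results.MP_08cfa9_nt.LeastTemperedPlace
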