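import Pool.Agent.W2helper81.TSFinalK

/-!
# The generic Ramanujan conjecture for `GL(3)`: tempered places at every scale

Let `π` be a unitary cuspidal automorphic representation of `GL_3` over a number field `K` (such a `π` is globally
generic), unramified outside the finite set `S`, with Satake parameters `α_{i,v}`, `v ∉ S`; `q_v` is the norm of `v`.
The component `π_v` is tempered iff `|α_{i,v}| = 1` for `i = 1, 2, 3`.

Let `Θ ≥ 1/2` be the least number such that `L^S(s, π, Ad)` has no zeros with `Re s > Θ`, `Re s ≥ 1/2` (so `Θ = 1/2`
under the Riemann hypothesis for this function).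

**Theorem.** For every `c < Θ` and **all** sufficiently large `X` there are at least `X^c` places `v` with `q_v ≤ X`
such that `π_v` is tempered. In particular this holds for every `c < 1/2`, unconditionally.

The structure `CuspidalFE` lists what is used of `π`. All of it is classical: the unramified components are unitary;
`L(s, π × π~)` converges absolutely for `Re s > 1` (Jacquet, Shalika) and is holomorphic except for a simple pole at
`s = 1`, with its functional equation and polynomial growth in vertical strips (Jacquet, Piatetski-Shapiro, Shalika,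
Moeglin, Waldspurger, Gelbart, Shahidi); the same for `ζ_K` (Hecke); and the partial adjoint `L`-function of `GL_3`
is holomorphic in `Re s ≥ 1/2` (Hundley, Zhang).

Idea. The coefficients of `log L^S(s, π, Ad)` at the powers of `v` are nonnegative if `π_v` is not tempered. If there
were few tempered places at the scale `X`, an explicit formula with a Gaussian weight around `log X`, evaluated at a
real point and at a point near a zero (or pole) of `L(s, π × π~) / ζ_K(s)`, would violate this positivity. Such zeros
or poles exist with real part arbitrarily close to `1/2` by the functional equation.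
-/

set_option autoImplicit false

open Complex Filter Topology NumberField IsDedekindDomain

namespace Pool.Agent.Results.MP_08cfa9_nt.TemperedAtEveryScale

open Pool.Agent.W2helper81.TS Pool.Agent.TH861.GL3

/-- **Tempered places at every scale.** `A` is the analytic continuation of `L^S(s, π, Ad)` to `Re s ≥ 1/2`. -/
theorem result {K : Type*} [Field K] [NumberField K] {S : Finset (HeightOneSpectrum (𝓞 K))}
    {α : PL S → Fin 3 → ℂ} (h : CuspidalFE α)
    {A : ℂ → ℂ} (hA : AnalyticOnNhd ℂ A {s : ℂ | 1 / 2 ≤ s.re}) (hAe : ∀ s : ℂ, 1 < s.re → A s = cexp (logAd α s))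
    {c : ℝ} (hc : c < 1 / 2 ∨ ∃ ρ : ℂ, 1 / 2 ≤ ρ.re ∧ A ρ = 0 ∧ c < ρ.re) :
    ∀ᶠ X : ℝ in atTop, X ^ c ≤ (({v : PL S | (qq v.1 : ℝ) ≤ X ∧ Tempered α v}.ncard : ℕ) : ℝ) := by
  rcases hc with hc | ⟨ρ, h1, h2, h3⟩
  · exact field_half h hc
  · rcases h1.eq_or_lt with h4 | h4
    · exact field_half h (by linarith)
    · filter_upwards [field_zero h hA hAe h4 h2 h3 one_pos, eventually_gt_atTop (0 : ℝ)] with X h5 h6
      refine h5.trans (Nat.cast_le.2 (Set.ncard_le_ncard ?_ ?_))
      · rintro v ⟨-, a2, a3, -⟩
        exact ⟨a2, a3⟩
      · refine (fin_log (Real.log X)).subset ?_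
        rintro v ⟨a2, -⟩
        exact (log_iff h6 v.1).2 a2

end Pool.Agent.Results.MP_08cfa9_nt.TemperedAtEveryScale
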