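import Mathlib
import Pool.Agent.W2helper97.TX.Cor

/-!
# Tempered places of degree one over `ℚ` at all scales, for `GL(3)` over every number field

Let `π` be a unitary cuspidal automorphic representation of `GL_n` over a number field `K`. If `K ≠ ℚ`, a lower bound
`X^(1/2 - ε)` for the number of tempered places `v` with `q_v ≤ X` contains no information on places of degree one over `ℚ`:
the places of degree two alone contribute about `X^(1/2) / log X` places. Here, for every `ε > 0` and ALL large `x`, at least
`x^(1/2 - ε)` primes `p` in `[x^(1 - ε), x]` have a place `v | p` of `K` of degree one with `|a_v| < 1`, and for `n = 3` the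
component `π_v` is tempered: all its Satake parameters have absolute value one.

Idea. The coefficients of `log (L(s, π × π~) / ζ_K(s))` at the powers `p^k`, `k ≥ 2`, are not controlled; those with
`k = 2` are of the size of the main term. They are bounded below by those of `-m log ζ(2 s)`, `m` the degree of `K`. Adding
`m log ζ(2 s)` creates a pole of the logarithmic derivative at `s = 1/2`, of order `m / 2`, which cannot be compensated by
the nearest zero as in Landau's lemma. Instead we use the Taylor coefficients at `σ + i (t_j - t_l)` for
several `t_j` at once: if `p` with `a_p < b_p` are rare, the matrix of the weights of the poles at `1/2 + i (t_j - t_l)` is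
positive semidefinite, and this bounds the number of zeros and poles of the quotient in every window `[T, T + 1]` of the
critical line. But then the quotient grows like `T^η`, `η` arbitrarily small, to the left of the critical line, which
contradicts the functional equation.

The structure `LPair` lists what is used of the L-functions. For `a = aK P α`, `b = bK P` one has, up to the Euler factors at
`S`, `exp (logL a s) = L(s, π × π~)` and `exp (logL b s) = ζ_K(s)`, and all of it is known: absolute convergence for `Re s > 1`,
continuation with the pole at `s = 1` only, polynomial growth in vertical strips, the functional equations (the gamma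
factor of `ζ_K` divides that of `L(s, π × π~)`), `Re κ_j ≥ -1`, and the holomorphy of `L(s, π × π~) / ζ_K(s)`, the adjoint
L-function, at the REAL points of `[1/2, 1]` (for `n = 3`: Hundley, Zhang; for all `n` if `ζ_K` has no real zeros, for
instance `K = ℚ`).
-/

set_option autoImplicit false

namespace Pool.Agent.Results.MP_08cfa9_nt.TemperedDegreeOneAllScales

open Pool.Agent.W189 Pool.Agent.W189.TP Pool.Agent.W2helper97.TX

/-- **Tempered places of degree one at all scales.** -/
theorem result {S : Finset Nat.Primes} (P : Places S) (n : ℕ)
    (α : (p : PS S) → Fin (P.g p) → Fin n → ℂ) (hU : ∀ p v, RS.Unitary (α p v))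
    (h : LPair (aK P α) (bK P)) (ε : ℝ) (hε : 0 < ε) :
    ∃ X : ℝ, ∀ x : ℝ, X ≤ x →
      x ^ (1 / 2 - ε) ≤ (({p : PS S | x ^ (1 - ε) ≤ ((p.1 : ℕ) : ℝ) ∧ ((p.1 : ℕ) : ℝ) ≤ x ∧
        ∃ v, P.f p v = 1 ∧ ‖∑ i, α p v i‖ < 1 ∧
          (n = 3 → ∀ i, ‖α p v i‖ = 1)}.ncard : ℕ) : ℝ) := by
  refine weaken (fun p hp => ?_) (number_field P h ε hε)
  obtain ⟨v, h1, h2⟩ := hp
  refine ⟨v, h1, h2, ?_⟩
  intro hn
  subst hn
  exact temp_of_lt (hU p v) h2

end Pool.Agent.Results.MP_08cfa9_nt.TemperedDegreeOneAllScales
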