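import Mathlib
import Pool.Agent.W2helper97.TW.Ex2
import Pool.Agent.W2helper88.TW.P1
import Pool.Agent.W2helper72.TW.P2
import Pool.Agent.W2helper60.TW.P3
import Pool.Agent.W2helper68.TW.P4
import Pool.Agent.W2helper97.TX.Cor

/-!
# The generic Ramanujan conjecture over `ℚ`: tempered primes at all scales

Let `π` be a unitary cuspidal automorphic representation of `GL_n` over `ℚ`, `n ≥ 2` (such a `π` is globally
generic), unramified outside the finite set `S`, with Satake parameters `α_{i,p}`, `p ∉ S`; `π_p` is tempered
iff `|α_{i,p}| = 1` for all `i`. We show that for every `ε > 0` and ALL sufficiently large `x` there are at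
least `x^(1/2 - ε)` primes `p` in `[x^(1 - ε), x]` for which `|a_π(p)| < 1`, where `a_π(p)` is the trace of the Satake
parameter; if `n = 3`, then `π_p` is tempered for all these `p`.

The structure `RankinSelbergG` lists what is used of `π`. All of it is classical: the unramified components are
unitary; the Rankin-Selberg series converges absolutely for `Re s > 1` (Jacquet, Shalika);
`L(s, π × π~)` is holomorphic except for a simple pole at `s = 1`, has its functional equation and is of at most
exponential (in fact polynomial) growth in vertical strips.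

The proof replaces Landau's lemma by a local version: the Taylor coefficients of
`-(L'/L)(s, π × π~) + (ζ'/ζ)(s) - (ζ'/ζ)(2 s)` at a point `σ > 1` and at `σ + i t` are compared by means of the nearest
zeros; the term `(ζ'/ζ)(2 s)` removes the squares of primes, and its pole at `s = 1/2` has half the weight of a zero on the
critical line. That `L(s, π × π~)` and `ζ(s)` do not have the same zeros is deduced from the functional equation.
-/

set_option autoImplicit false

namespace Pool.Agent.Results.MP_08cfa9_nt.TemperedPrimesAllScales

open Pool.Agent.W189 Pool.Agent.W189.TP Pool.Agent.W2helper97.TW Pool.Agent.W2helper97.TX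

/-- **At all scales many primes have a small trace; for `GL(3)` these primes are tempered.** -/
theorem result {S : Finset Nat.Primes} (n : ℕ) (hn : 2 ≤ n) (α : PS S → Fin n → ℂ) (h : RankinSelbergG α)
    (ε : ℝ) (hε : 0 < ε) : ∃ X : ℝ, ∀ x : ℝ, X ≤ x →
      x ^ (1 / 2 - ε) ≤ (({p : PS S | x ^ (1 - ε) ≤ ((p.1 : ℕ) : ℝ) ∧ ((p.1 : ℕ) : ℝ) ≤ x ∧
        ‖∑ i, α p i‖ < 1 ∧ (n = 3 → ∀ i, ‖α p i‖ = 1)}.ncard : ℕ) : ℝ) := by
  refine weaken (fun p hp => ⟨hp, ?_⟩) (small_all Pool.Agent.W2helper88.TW.p1 Pool.Agent.W2helper72.TW.p2
      Pool.Agent.W2helper60.TW.P3_holds (ex Pool.Agent.W2helper68.TW.p4) hn h ε hε)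
  intro h3
  subst h3
  exact temp_of_lt (h.unitary p) hp

end Pool.Agent.Results.MP_08cfa9_nt.TemperedPrimesAllScales
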